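import Pool.Agent.Helper44.HD.GoalsQ

/-!
# Project HD, packet QG: equivariant generators
-/

set_option autoImplicit false

open Finset
open scoped TensorProduct

namespace Pool.Agent.Helper98.HD

open Pool.Agent.Helper44.HD

/-- matrices of a representation in a basis -/
theorem mrep_of {k G : Type} [Field k] [Group G] (D : RedGroup k G) (V : Type) [AddCommGroup V]
    [Module k V] (n : ℕ) (b : Module.Basis (Fin n) k V) (ρ : G → V →ₗ[k] V)
    (h1 : ρ 1 = LinearMap.id) (hm : ∀ g h, ρ (g * h) = ρ g ∘ₗ ρ h)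
    (hr : ∀ i j, (fun g => b.repr (ρ g (b j)) i) ∈ D.O) :
    ∃ α : MRep D (Fin n), ∀ g j, ρ g (b j) = ∑ i, α.m g i j • b i := by
  refine ⟨{ m := fun g => LinearMap.toMatrix b b (ρ g), one := ?_, mul := ?_, rat := ?_ }, ?_⟩
  · rw [h1, LinearMap.toMatrix_id]
  · intro g h
    rw [hm, LinearMap.toMatrix_comp b b b]
  · intro i j
    simp only [LinearMap.toMatrix_apply]
    exact hr i j
  · intro g j
    simp only [LinearMap.toMatrix_apply]
    exact (b.sum_repr (ρ g (b j))).symm

/-- QG -/
theorem qg : StmtQG := by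
  classical
  intro k G R M _ _ _ _ _ _ D _ _ _ _ Y hfin
  obtain ⟨S, hS⟩ := hfin.fg_top
  let W0 : Submodule k M := Submodule.span k {x | ∃ s ∈ S, ∃ p, x = Y.π p s}
  have hSW : ∀ s ∈ S, s ∈ W0 := fun s hs => Submodule.subset_span ⟨s, hs, 1, by simp⟩
  have hst : ∀ p, ∀ x ∈ W0, Y.π p x ∈ W0 := by
    intro p x hx
    have h1 : W0 ≤ W0.comap (Y.π p) := by
      apply Submodule.span_le.2
      rintro _ ⟨s, hs, q, rfl⟩
      exact Submodule.subset_span ⟨s, hs, p * q, by rw [map_mul]; rfl⟩
    exact h1 hx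
  have hfd : FiniteDimensional k W0 := by
    have h1 : ∀ s : M, ∃ (n : ℕ) (m : Fin n → M), ∀ p, Y.π p s ∈ Submodule.span k (Set.range m) := by
      intro s
      obtain ⟨n, f, m, _, h2⟩ := RF_rep D.pr (Y.rat s)
      refine ⟨n, m, fun p => ?_⟩
      have h3 : Y.π p s = ∑ i, f i p • m i := h2 p
      rw [h3]
      exact Submodule.sum_mem _ fun i _ =>
        Submodule.smul_mem _ _ (Submodule.subset_span ⟨i, rfl⟩)
    choose n m hm using h1
    have h2 : W0 ≤ Submodule.span k (⋃ s ∈ S, Set.range (m s)) := by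
      apply Submodule.span_le.2
      rintro _ ⟨s, hs, p, rfl⟩
      refine Submodule.span_mono ?_ (hm s p)
      exact Set.subset_biUnion_of_mem (u := fun s => Set.range (m s)) hs
    have h3 : FiniteDimensional k (Submodule.span k (⋃ s ∈ S, Set.range (m s))) :=
      FiniteDimensional.span_of_finite k
        (Set.Finite.biUnion S.finite_toSet (fun s _ => Set.finite_range _))
    exact Submodule.finiteDimensional_of_le h2
  let ρ : G × G → (W0 →ₗ[k] W0) := fun p => (Y.π p).restrict (hst p)
  have hρ : ∀ p x, ((ρ p x : W0) : M) = Y.π p x := fun p x => rfl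
  have hρ1 : ρ 1 = LinearMap.id := by
    apply LinearMap.ext
    intro x
    apply Subtype.ext
    rw [hρ, map_one]
    rfl
  have hρm : ∀ p q, ρ (p * q) = ρ p ∘ₗ ρ q := by
    intro p q
    apply LinearMap.ext
    intro x
    apply Subtype.ext
    rw [hρ, map_mul]
    rfl
  have hrat : ∀ (l : W0 →ₗ[k] k) (x : W0), (fun p => l (ρ p x)) ∈ D.pr.O := by
    intro l x
    obtain ⟨l', hl'⟩ := LinearMap.exists_extend l
    have h1 := RF_fun D.pr l' (Y.rat x)
    have h2 : (fun p => l (ρ p x)) = fun p => l' (Y.π p x) := by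
      funext p
      rw [← hl']
      rfl
    rw [h2]
    exact h1
  have hO1 : ∀ F ∈ D.pr.O, (fun g => F (g, 1)) ∈ D.O := by
    intro F hF
    refine D.O2_ind (p := fun F => (fun g => F (g, 1)) ∈ D.O) ?_ ?_ ?_ hF
    · intro f hf f' _
      have h1 : (fun g : G => f (g, (1 : G)).1 * f' (g, (1 : G)).2) = f' 1 • f := by
        funext g
        simp [mul_comm]
      change (fun g : G => f (g, (1 : G)).1 * f' (g, (1 : G)).2) ∈ D.O
      rw [h1]
      exact D.O.smul_mem hf _
    · exact D.O.zero_mem
    · intro a b ha hb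
      exact D.O.add_mem ha hb
  have hO2 : ∀ F ∈ D.pr.O, (fun h => F (1, h)) ∈ D.O := by
    intro F hF
    refine D.O2_ind (p := fun F => (fun h => F (1, h)) ∈ D.O) ?_ ?_ ?_ hF
    · intro f _ f' hf'
      have h1 : (fun h : G => f ((1 : G), h).1 * f' ((1 : G), h).2) = f 1 • f' := by
        funext h
        simp
      change (fun h : G => f ((1 : G), h).1 * f' ((1 : G), h).2) ∈ D.O
      rw [h1]
      exact D.O.smul_mem hf' _
    · exact D.O.zero_mem
    · intro a b ha hb
      exact D.O.add_mem ha hb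
  -- the first representation
  let w := Module.finBasis k W0
  obtain ⟨α, hα⟩ := mrep_of D W0 _ w (fun g => ρ (g, 1)) hρ1 (by
      intro g h
      rw [← hρm, Prod.mk_mul_mk, one_mul]) (by
      intro i j
      exact hO1 _ (hrat (w.coord i) (w j)))
  -- the commutant
  let B : Submodule k (W0 →ₗ[k] W0) :=
    { carrier := {φ | ∀ g : G, ρ (g, 1) ∘ₗ φ = φ ∘ₗ ρ (g, 1)}
      zero_mem' := by intro g; simp
      add_mem' := by
        intro φ ψ h1 h2 g
        rw [LinearMap.comp_add, LinearMap.add_comp, h1 g, h2 g]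
      smul_mem' := by
        intro c φ h1 g
        rw [LinearMap.comp_smul, LinearMap.smul_comp, h1 g] }
  have hcomm : ∀ g h : G, ρ (g, 1) ∘ₗ ρ (1, h) = ρ (1, h) ∘ₗ ρ (g, 1) := by
    intro g h
    rw [← hρm, ← hρm, Prod.mk_mul_mk, Prod.mk_mul_mk, mul_one, one_mul, mul_one, one_mul]
  have hLmem : ∀ (h : G) (φ : B), ρ (1, h) ∘ₗ (φ : W0 →ₗ[k] W0) ∈ B := by
    intro h φ g
    rw [← LinearMap.comp_assoc, hcomm, LinearMap.comp_assoc, φ.2 g, LinearMap.comp_assoc]
  let L : G → (B →ₗ[k] B) := fun h =>
    { toFun := fun φ => ⟨ρ (1, h) ∘ₗ (φ : W0 →ₗ[k] W0), hLmem h φ⟩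
      map_add' := fun φ ψ => Subtype.ext (LinearMap.comp_add _ _ _)
      map_smul' := fun c φ => Subtype.ext (LinearMap.comp_smul _ _ _) }
  have hL : ∀ h φ, ((L h φ : B) : W0 →ₗ[k] W0) = ρ (1, h) ∘ₗ (φ : W0 →ₗ[k] W0) :=
    fun h φ => rfl
  have hBfree : Module.Free k B := Module.Free.of_divisionRing k B
  have hBfin : Module.Finite k B := FiniteDimensional.finiteDimensional_submodule B
  let b := Module.finBasis k B
  obtain ⟨β, hβ⟩ := mrep_of D B _ b L (by
      apply LinearMap.ext
      intro φ
      apply Subtype.ext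
      rw [hL]
      change ρ 1 ∘ₗ _ = _
      rw [hρ1]
      rfl) (by
      intro g h
      apply LinearMap.ext
      intro φ
      apply Subtype.ext
      have e1 : ρ (1, g * h) = ρ (1, g) ∘ₗ ρ (1, h) := by
        rw [← hρm, Prod.mk_mul_mk, one_mul]
      rw [hL, e1]
      rfl) (by
      intro i j
      obtain ⟨l, hl⟩ := LinearMap.exists_extend (b.coord i)
      have e1 : ∀ h : G, b.repr (L h (b j)) i = l (ρ (1, h) ∘ₗ ((b j : B) : W0 →ₗ[k] W0)) := by
        intro h
        have e2 := LinearMap.congr_fun hl (L h (b j))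
        exact e2.symm
      -- expand `ρ (1, h)` in matrix units
      have e3 : ∀ T : W0 →ₗ[k] W0, T = ∑ s, ∑ t, (w.repr (T (w t)) s) •
          (LinearMap.toSpanSingleton k W0 (w s) ∘ₗ w.coord t) := by
        intro T
        apply w.ext
        intro t
        simp only [LinearMap.sum_apply, LinearMap.smul_apply, LinearMap.comp_apply,
          LinearMap.toSpanSingleton_apply, Module.Basis.coord_apply, Module.Basis.repr_self]
        rw [← w.sum_repr (T (w t))]
        apply Finset.sum_congr rfl
        intro s _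
        rw [Finset.sum_eq_single t]
        · simp
        · intro t' _ ht'
          rw [Finsupp.single_eq_of_ne ht']
          simp
        · simp
      have e4 : (fun h : G => b.repr (L h (b j)) i) = ∑ s, ∑ t,
          (l ((LinearMap.toSpanSingleton k W0 (w s) ∘ₗ w.coord t) ∘ₗ
            ((b j : B) : W0 →ₗ[k] W0))) • (fun h : G => w.repr (ρ (1, h) (w t)) s) := by
        funext h
        rw [e1, Finset.sum_apply]
        have e5 := congrArg (fun T => (l ∘ₗ LinearMap.lcomp k W0 ((b j : B) : W0 →ₗ[k] W0)) T)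
          (e3 (ρ (1, h)))
        simp only [map_sum, map_smul] at e5
        refine Eq.trans e5 ?_
        apply Finset.sum_congr rfl
        intro s _
        rw [Finset.sum_apply]
        apply Finset.sum_congr rfl
        intro t _
        rw [Pi.smul_apply, smul_eq_mul, smul_eq_mul, mul_comm]
        rfl
      rw [e4]
      refine D.O.sum_mem fun s _ => D.O.sum_mem fun t _ => D.O.smul_mem ?_ _
      exact hO2 _ (hrat (w.coord s) (w t)))
  -- the map
  let u : Fin _ → Fin _ → M := fun a c => (((b c : B) : W0 →ₗ[k] W0) (w a) : W0)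
  have hkey : ∀ (g h : G) a' c', Y.π (g, h) (u a' c') =
      ∑ a, ∑ c, (α.m g a a' * β.m h c c') • u a c := by
    intro g h a' c'
    have e1 : ρ (g, h) = ρ (1, h) ∘ₗ ρ (g, 1) := by
      rw [← hρm, Prod.mk_mul_mk, mul_one, one_mul]
    have e2 : Y.π (g, h) (u a' c') = ((ρ (1, h) (((b c' : B) : W0 →ₗ[k] W0)
        (ρ (g, 1) (w a'))) : W0) : M) := by
      have e3 := LinearMap.congr_fun ((b c').2 g) (w a')
      simp only [LinearMap.comp_apply] at e3
      rw [← e3]
      change ((ρ (g, h) (((b c' : B) : W0 →ₗ[k] W0) (w a')) : W0) : M) = _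
      rw [e1]
      rfl
    have e4 : ∀ x : W0, ρ (1, h) (((b c' : B) : W0 →ₗ[k] W0) x) =
        ∑ c, β.m h c c' • ((b c : B) : W0 →ₗ[k] W0) x := by
      intro x
      have e5 := congrArg (fun φ : B => (φ : W0 →ₗ[k] W0) x) (hβ h c')
      simp only [hL, LinearMap.comp_apply] at e5
      rw [e5]
      simp
    have hα' : ρ (g, 1) (w a') = ∑ i, α.m g i a' • w i := hα g a'
    rw [e2, hα', map_sum, map_sum]
    simp only [map_smul, e4]
    simp only [AddSubmonoidClass.coe_finsetSum, Submodule.coe_smul, smul_sum, smul_smul]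
    rfl
  let e : FM (Fin (Module.finrank k W0)) (Fin (Module.finrank k B)) k R →ₗ[Gam k R] M :=
    { toFun := fun x => ∑ a, ∑ c, x a c • u a c
      map_add' := by
        intro x y
        simp only [FM_add, add_smul, sum_add_distrib]
      map_smul' := by
        intro r x
        simp only [FM_smul, mul_smul, smul_sum, RingHom.id_apply] }
  have he : ∀ x, e x = ∑ a, ∑ c, x a c • u a c := fun x => rfl
  refine ⟨_, _, α, β, e, ?_, ?_⟩
  · -- surjective
    have hu : ∀ a c, u a c ∈ LinearMap.range e := by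
      intro a c
      refine ⟨fun a' c' => if a' = a ∧ c' = c then 1 else 0, ?_⟩
      rw [he]
      rw [Finset.sum_eq_single a]
      · rw [Finset.sum_eq_single c]
        · simp
        · intro c' _ hc'
          rw [if_neg (fun h => hc' h.2)]
          exact gzero_smul _
        · simp
      · intro a' _ ha'
        apply Finset.sum_eq_zero
        intro c' _
        rw [if_neg (fun h => ha' h.1)]
        exact gzero_smul _
      · simp
    have hk : ∀ (c : k) (x : M), x ∈ LinearMap.range e → c • x ∈ LinearMap.range e := by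
      intro c x hx
      rw [← algebraMap_smul (Gam k R) c x]
      exact (LinearMap.range e).smul_mem _ hx
    have hid : (LinearMap.id : W0 →ₗ[k] W0) ∈ B := by
      intro g
      rw [LinearMap.comp_id, LinearMap.id_comp]
    have hw : ∀ a, ((w a : W0) : M) ∈ LinearMap.range e := by
      intro a
      have e1 := b.sum_repr ⟨LinearMap.id, hid⟩
      have e2 := congrArg (fun φ : B => (((φ : W0 →ₗ[k] W0) (w a) : W0) : M)) e1
      simp only [AddSubmonoidClass.coe_finsetSum, Submodule.coe_smul, LinearMap.sum_apply,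
        LinearMap.smul_apply, LinearMap.id_apply] at e2
      rw [← e2]
      exact Submodule.sum_mem _ fun c _ => hk _ _ (hu a c)
    have hW : ∀ x ∈ W0, x ∈ LinearMap.range e := by
      intro x hx
      have e1 := w.sum_repr ⟨x, hx⟩
      have e2 := congrArg (fun y : W0 => (y : M)) e1
      simp only [AddSubmonoidClass.coe_finsetSum, Submodule.coe_smul] at e2
      rw [← e2]
      exact Submodule.sum_mem _ fun a _ => hk _ _ (hw a)
    rw [← LinearMap.range_eq_top, eq_top_iff, ← hS]
    apply Submodule.span_le.2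
    intro s hs
    exact hW s (hSW s hs)
  · intro g h x
    rw [he, he]
    simp only [map_sum, Y.semi, hkey]
    have e1 : ∀ a c, fabF α β g h x a c =
        ∑ a', ∑ c', (α.m g a a' * β.m h c c') • gm k R (g, h) (x a' c') := fun a c => rfl
    simp only [e1, sum_smul, smul_sum]
    have e2 : ∀ (r : k) (y : Gam k R) (z : M), (r • y) • z = y • (r • z) := by
      intro r y z
      rw [gsmul_comm, smul_assoc]
    simp only [e2]
    -- rearrange the sums
    calc ∑ a, ∑ c, ∑ a', ∑ c', gm k R (g, h) (x a' c') • (α.m g a a' * β.m h c c') • u a c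
        = ∑ a, ∑ a', ∑ c, ∑ c', gm k R (g, h) (x a' c') • (α.m g a a' * β.m h c c') • u a c := by
          exact sum_congr rfl fun a _ => sum_comm
      _ = ∑ a', ∑ a, ∑ c, ∑ c', gm k R (g, h) (x a' c') • (α.m g a a' * β.m h c c') • u a c :=
          sum_comm
      _ = ∑ a', ∑ a, ∑ c', ∑ c, gm k R (g, h) (x a' c') • (α.m g a a' * β.m h c c') • u a c := by
          exact sum_congr rfl fun a' _ => sum_congr rfl fun a _ => sum_comm
      _ = ∑ a', ∑ c', ∑ a, ∑ c, gm k R (g, h) (x a' c') • (α.m g a a' * β.m h c c') • u a c := by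
          exact sum_congr rfl fun a' _ => sum_comm

end Pool.Agent.Helper98.HD
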